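import Mathlib

/-! # Words in the expansions of rational translates of a real number -/

set_option autoImplicit false

open Finset Filter

namespace Q197.DT

/-- the block of `k` digits of `y` in base `b` after the place `n` -/
noncomputable def blk (b k : ℕ) (y : ℝ) (n : ℕ) : ℤ := ⌊(b : ℝ) ^ (n + k) * y⌋ % (b : ℤ) ^ k

/-- the number of the `m < n` such that the word `U` of `k` digits stands after the place `m` -/
noncomputable def cnt (b k : ℕ) (U : ℤ) (y : ℝ) (n : ℕ) : ℕ :=
  ((range n).filter (fun m => blk b k y m = U)).card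

/-- the rational translate -/
noncomputable def tr (b P : ℕ) (x : ℝ) (w : ℕ) : ℝ := x + w / ((b : ℝ) ^ P - 1)

open Classical in
/-- the words of `P` digits which do not contain the word `U` of `k` digits -/
noncomputable def avoid (b k P : ℕ) (U : ℤ) : Finset ℕ :=
  (range (b ^ P)).filter (fun Y => ∀ i, i + k ≤ P → ((Y : ℤ) / (b : ℤ) ^ (P - i - k)) % (b : ℤ) ^ k ≠ U)

lemma mod_div_mod (Z : ℤ) {b : ℕ} (hb : 1 ≤ b) (s k t : ℕ) :
    (Z % (b : ℤ) ^ (t + k + s)) / (b : ℤ) ^ s % (b : ℤ) ^ k = Z / (b : ℤ) ^ s % (b : ℤ) ^ k := by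
  have hb' : (0 : ℤ) < (b : ℤ) := by exact_mod_cast hb
  have hs : (0 : ℤ) < (b : ℤ) ^ s := by positivity
  have h1 : Z = Z % (b : ℤ) ^ (t + k + s) + (b : ℤ) ^ s * ((b : ℤ) ^ k * ((b : ℤ) ^ t *
      (Z / (b : ℤ) ^ (t + k + s)))) := by
    have h2 := Int.emod_add_mul_ediv Z ((b : ℤ) ^ (t + k + s))
    have h3 : (b : ℤ) ^ (t + k + s) = (b : ℤ) ^ s * ((b : ℤ) ^ k * (b : ℤ) ^ t) := by
      rw [← pow_add, ← pow_add]
      congr 1
      omega
    calc Z = Z % (b : ℤ) ^ (t + k + s) + (b : ℤ) ^ (t + k + s) * (Z / (b : ℤ) ^ (t + k + s)) := h2.symm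
      _ = _ := by
        congr 1
        nth_rw 1 [h3]
        ring
  have h4 : Z / (b : ℤ) ^ s = (Z % (b : ℤ) ^ (t + k + s)) / (b : ℤ) ^ s + (b : ℤ) ^ k * ((b : ℤ) ^ t *
      (Z / (b : ℤ) ^ (t + k + s))) := by
    conv_lhs => rw [h1]
    rw [Int.add_mul_ediv_left _ _ hs.ne']
  rw [h4, Int.add_mul_emod_self_left]

lemma blk_sub {b : ℕ} (hb : 1 ≤ b) (y : ℝ) (n k P i : ℕ) (h : i + k ≤ P) :
    blk b k y (n + i) = (blk b P y n) / (b : ℤ) ^ (P - i - k) % (b : ℤ) ^ k := by
  unfold blk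
  have hb' : (0 : ℝ) < (b : ℝ) := by exact_mod_cast hb
  have h1 := mod_div_mod ⌊(b : ℝ) ^ (n + P) * y⌋ hb (P - i - k) k i
  have h2 : i + k + (P - i - k) = P := by omega
  rw [h2] at h1
  rw [h1]
  congr 1
  have h3 : (b : ℝ) ^ (n + i + k) * y = ((b : ℝ) ^ (n + P) * y) / ((b ^ (P - i - k) : ℕ) : ℝ) := by
    push_cast
    rw [eq_div_iff (by positivity)]
    have h4 : (b : ℝ) ^ (n + P) = (b : ℝ) ^ (n + i + k) * (b : ℝ) ^ (P - i - k) := by
      rw [← pow_add]
      congr 1
      omega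
    rw [h4]
    ring
  rw [h3, Int.floor_div_natCast]
  push_cast
  rfl

lemma blk_nonneg {b : ℕ} (hb : 1 ≤ b) (k : ℕ) (y : ℝ) (n : ℕ) : 0 ≤ blk b k y n := by
  unfold blk
  exact Int.emod_nonneg _ (by positivity)

lemma blk_lt {b : ℕ} (hb : 1 ≤ b) (k : ℕ) (y : ℝ) (n : ℕ) : blk b k y n < (b : ℤ) ^ k := by
  unfold blk
  have hb' : (0 : ℤ) < (b : ℤ) := by exact_mod_cast hb
  exact Int.emod_lt_of_pos _ (by positivity)

/-- the block of `P` digits of the translate after a multiple of `P` -/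
lemma blk_tr {b P : ℕ} (hb : 2 ≤ b) (hP : 1 ≤ P) (x : ℝ) (m : ℕ) :
    ∃ I : ℤ, ∀ w < b ^ P, ∃ e : ℤ, (e = 0 ∨ e = 1) ∧
      blk b P (tr b P x w) (P * m) = (I + w + e) % (b : ℤ) ^ P := by
  have hb1 : (1 : ℝ) < b := by exact_mod_cast hb
  have hQ : (1 : ℝ) < (b : ℝ) ^ P := one_lt_pow₀ hb1 (by omega)
  have hQ0 : (0 : ℝ) < (b : ℝ) ^ P - 1 := by linarith
  -- b^(P m) / (b^P - 1) = R + 1 / (b^P - 1)
  obtain ⟨R, hR⟩ : ∃ R : ℕ, (b : ℝ) ^ (P * m) = R * ((b : ℝ) ^ P - 1) + 1 := by
    refine ⟨∑ i ∈ range m, (b ^ P) ^ i, ?_⟩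
    have h1 := geom_sum_mul ((b : ℝ) ^ P) m
    push_cast
    rw [h1, pow_mul]
    ring
  obtain ⟨Z, hZ⟩ : ∃ Z : ℝ, Z = (b : ℝ) ^ (P * m + P) * x := ⟨_, rfl⟩
  refine ⟨⌊Z⌋, fun w hw => ?_⟩
  have hw1 : (w : ℝ) ≤ (b : ℝ) ^ P - 1 := by
    have : w + 1 ≤ b ^ P := hw
    have h2 : ((w + 1 : ℕ) : ℝ) ≤ ((b ^ P : ℕ) : ℝ) := by exact_mod_cast this
    push_cast at h2
    linarith
  obtain ⟨v, hv⟩ : ∃ v : ℝ, v = w / ((b : ℝ) ^ P - 1) := ⟨_, rfl⟩
  have hv0 : 0 ≤ v := by rw [hv]; positivity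
  have hv1 : v ≤ 1 := by rw [hv, div_le_one hQ0]; exact hw1
  have h1 : (b : ℝ) ^ (P * m + P) * tr b P x w = Z + v + ((w + R * w * b ^ P : ℕ) : ℝ) := by
    unfold tr
    have h2 : (b : ℝ) ^ (P * m + P) = (b : ℝ) ^ P * (R * ((b : ℝ) ^ P - 1) + 1) := by
      rw [← hR, ← pow_add]
      congr 1
      omega
    have h3 : (w : ℝ) = v * ((b : ℝ) ^ P - 1) := by
      rw [hv]
      field_simp
    rw [mul_add, ← hZ, ← hv, h2]
    push_cast
    have h4 : (w : ℝ) + R * w * (b : ℝ) ^ P = v * ((b : ℝ) ^ P - 1) + R * (v * ((b : ℝ) ^ P - 1)) * (b : ℝ) ^ P := by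
      rw [← h3]
    rw [h4]
    ring
  have hf0 := Int.self_sub_floor Z
  have hf1 := Int.fract_nonneg Z
  have hf2 := Int.fract_lt_one Z
  have h5 : ⌊Z + v⌋ = ⌊Z⌋ ∨ ⌊Z + v⌋ = ⌊Z⌋ + 1 := by
    have h6 : ⌊Z⌋ ≤ ⌊Z + v⌋ := Int.floor_le_floor (by linarith)
    have h7 : ⌊Z + v⌋ < ⌊Z⌋ + 2 := by
      rw [Int.floor_lt]
      push_cast
      linarith
    omega
  refine ⟨⌊Z + v⌋ - ⌊Z⌋, ?_, ?_⟩
  · rcases h5 with h5 | h5 <;> [left; right] <;> omega
  · unfold blk
    rw [h1, Int.floor_add_natCast]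
    push_cast
    have h8 : ⌊Z + v⌋ + ((w : ℤ) + R * w * (b : ℤ) ^ P) =
        (⌊Z⌋ + w + (⌊Z + v⌋ - ⌊Z⌋)) + (b : ℤ) ^ P * (R * w) := by ring
    rw [h8, Int.add_mul_emod_self_left]

/-- the words with a given block are at most two -/
lemma fibre {b P : ℕ} (hb : 2 ≤ b) (hP : 1 ≤ P) (x : ℝ) (m : ℕ) (S : Finset ℕ) :
    ((range (b ^ P)).filter (fun w => (blk b P (tr b P x w) (P * m)).toNat ∈ S)).card ≤
      2 * S.card := by
  classical
  obtain ⟨I, hI⟩ := blk_tr hb hP x m
  have hbP : (0 : ℤ) < (b : ℤ) ^ P := by positivity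
  -- w is determined by the block and e
  have hsub : (range (b ^ P)).filter (fun w => (blk b P (tr b P x w) (P * m)).toNat ∈ S) ⊆
      S.image (fun Y : ℕ => (((Y : ℤ) - I) % (b : ℤ) ^ P).toNat) ∪
      S.image (fun Y : ℕ => (((Y : ℤ) - I - 1) % (b : ℤ) ^ P).toNat) := by
    intro w hw
    rw [mem_filter, mem_range] at hw
    obtain ⟨hw1, hw2⟩ := hw
    obtain ⟨e, he, h1⟩ := hI w hw1
    have hn : 0 ≤ blk b P (tr b P x w) (P * m) := blk_nonneg (by omega) P _ _
    have hw3 : (w : ℤ) < (b : ℤ) ^ P := by exact_mod_cast hw1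
    have key : ∀ e' : ℤ, e = e' →
        ((((blk b P (tr b P x w) (P * m)).toNat : ℤ) - I - e') % (b : ℤ) ^ P).toNat = w := by
      intro e' hee
      rw [Int.toNat_of_nonneg hn, h1, hee]
      have h2 : ((I + w + e') % (b : ℤ) ^ P - I - e') % (b : ℤ) ^ P = w := by
        have h3 : (I + w + e') % (b : ℤ) ^ P - I - e' = w + (b : ℤ) ^ P * (-((I + w + e') / (b : ℤ) ^ P)) := by
          have h4 := Int.emod_add_mul_ediv (I + w + e') ((b : ℤ) ^ P)
          linarith
        rw [h3, Int.add_mul_emod_self_left, Int.emod_eq_of_lt (by positivity) hw3]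
      rw [h2]
      simp
    rw [mem_union]
    rcases he with he | he
    · left
      rw [mem_image]
      refine ⟨_, hw2, ?_⟩
      have := key 0 he
      rw [sub_zero] at this
      exact this
    · right
      rw [mem_image]
      exact ⟨_, hw2, key 1 he⟩
  refine (card_le_card hsub).trans ((card_union_le _ _).trans ?_)
  have h1 : (S.image (fun Y : ℕ => (((Y : ℤ) - I) % (b : ℤ) ^ P).toNat)).card ≤ S.card := card_image_le
  have h2 : (S.image (fun Y : ℕ => (((Y : ℤ) - I - 1) % (b : ℤ) ^ P).toNat)).card ≤ S.card := card_image_le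
  omega

lemma mem_avoid {b k P : ℕ} (hb : 2 ≤ b) (U : ℤ) (y : ℝ) (n : ℕ)
    (h : ∀ i, i + k ≤ P → blk b k y (n + i) ≠ U) : (blk b P y n).toNat ∈ avoid b k P U := by
  classical
  unfold avoid
  have hn : 0 ≤ blk b P y n := blk_nonneg (by omega) P _ _
  have hl := blk_lt (b := b) (by omega) P y n
  rw [mem_filter, mem_range]
  constructor
  · have : ((blk b P y n).toNat : ℤ) < ((b ^ P : ℕ) : ℤ) := by
      rw [Int.toNat_of_nonneg hn]
      push_cast
      exact hl
    exact_mod_cast this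
  · intro i hi
    rw [Int.toNat_of_nonneg hn, ← blk_sub (by omega) y n k P i hi]
    exact h i hi

/-- the number of occurrences of the word in the first `P M` places -/
lemma cnt_blocks {b k P : ℕ} (hb : 2 ≤ b) (hk : 1 ≤ k) (U : ℤ) (y : ℝ) (M : ℕ) :
    M ≤ cnt b k U y (P * M) +
      ((range M).filter (fun m => (blk b P y (P * m)).toNat ∈ avoid b k P U)).card := by
  classical
  have h1 : (range M).card = ((range M).filter (fun m => (blk b P y (P * m)).toNat ∈ avoid b k P U)).card +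
      ((range M).filter (fun m => ¬ (blk b P y (P * m)).toNat ∈ avoid b k P U)).card :=
    (card_filter_add_card_filter_not _).symm
  rw [card_range] at h1
  have h2 : ((range M).filter (fun m => ¬ (blk b P y (P * m)).toNat ∈ avoid b k P U)).card ≤
      cnt b k U y (P * M) := by
    unfold cnt
    have h3 : ∀ m ∈ (range M).filter (fun m => ¬ (blk b P y (P * m)).toNat ∈ avoid b k P U),
        ∃ i, i + k ≤ P ∧ blk b k y (P * m + i) = U := by
      intro m hm
      rw [mem_filter] at hm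
      by_contra hcon
      push Not at hcon
      exact hm.2 (mem_avoid hb U y (P * m) hcon)
    choose! i hi1 hi2 using h3
    refine card_le_card_of_injOn (fun m => P * m + i m) (fun m hm => ?_) (fun m hm m' hm' h => ?_)
    · have hm1 := mem_range.1 (mem_filter.1 hm).1
      have h4 := hi1 m hm
      rw [mem_coe, mem_filter, mem_range]
      refine ⟨?_, hi2 m hm⟩
      show P * m + i m < P * M
      have h5 : P * (m + 1) ≤ P * M := Nat.mul_le_mul_left P hm1
      have h6 : P * (m + 1) = P * m + P := by ring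
      omega
    · have h4 := hi1 m hm
      have h5 := hi1 m' hm'
      have hP : 0 < P := by omega
      have h6 : (P * m + i m) / P = m := by
        rw [Nat.mul_add_div hP, Nat.div_eq_of_lt (by omega), add_zero]
      have h7 : (P * m' + i m') / P = m' := by
        rw [Nat.mul_add_div hP, Nat.div_eq_of_lt (by omega), add_zero]
      have h8 : P * m + i m = P * m' + i m' := h
      rw [← h6, h8, h7]
  omega

open Classical in
/-- **Few exceptional translates** -/
theorem few_translates {b k P : ℕ} (hb : 2 ≤ b) (hk : 1 ≤ k) (hkP : k ≤ P) (U : ℤ) (x : ℝ) {d : ℝ}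
    (hdP : d * P < 1) :
    (((range (b ^ P)).filter (fun w => ∀ᶠ n : ℕ in atTop,
      (cnt b k U (tr b P x w) n : ℝ) < d * n)).card : ℝ) ≤
      2 / (1 - d * P) * (avoid b k P U).card := by
  have hP : 1 ≤ P := hk.trans hkP
  have hPr : (1 : ℝ) ≤ P := by exact_mod_cast hP
  obtain ⟨S, hS⟩ : ∃ S, S = (range (b ^ P)).filter (fun w => ∀ᶠ n : ℕ in atTop,
      (cnt b k U (tr b P x w) n : ℝ) < d * n) := ⟨_, rfl⟩
  rw [← hS]
  have h1 : ∀ᶠ n : ℕ in atTop, ∀ w ∈ S, (cnt b k U (tr b P x w) n : ℝ) < d * n := by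
    refine (Filter.eventually_all_finset _).2 fun w hw => ?_
    rw [hS] at hw
    exact (mem_filter.1 hw).2
  obtain ⟨N, hN⟩ := eventually_atTop.1 h1
  obtain ⟨M, hM⟩ : ∃ M : ℕ, M = N + 1 := ⟨_, rfl⟩
  have hMN : N ≤ P * M := by nlinarith
  have hMpos : (0 : ℝ) < M := by
    rw [hM]
    positivity
  have h2 := hN (P * M) hMN
  -- double counting
  have h3 : ∀ w ∈ S, (1 - d * P) * M ≤
      (((range M).filter (fun m => (blk b P (tr b P x w) (P * m)).toNat ∈ avoid b k P U)).card : ℝ) := by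
    intro w hw
    have h4 := cnt_blocks (b := b) (k := k) (P := P) hb hk U (tr b P x w) M
    have h5 : (M : ℝ) ≤ cnt b k U (tr b P x w) (P * M) +
      ((range M).filter (fun m => (blk b P (tr b P x w) (P * m)).toNat ∈ avoid b k P U)).card := by
      exact_mod_cast h4
    have h6 := h2 w hw
    push_cast at h6
    nlinarith
  have h7 : (S.card : ℝ) * ((1 - d * P) * M) ≤ ∑ w ∈ S,
      (((range M).filter (fun m => (blk b P (tr b P x w) (P * m)).toNat ∈ avoid b k P U)).card : ℝ) := by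
    rw [← nsmul_eq_mul, ← sum_const]
    exact sum_le_sum h3
  have h8 : ∑ w ∈ S, (((range M).filter (fun m =>
      (blk b P (tr b P x w) (P * m)).toNat ∈ avoid b k P U)).card : ℝ) ≤
      M * (2 * (avoid b k P U).card) := by
    have h9 : ∑ w ∈ S, (((range M).filter (fun m =>
        (blk b P (tr b P x w) (P * m)).toNat ∈ avoid b k P U)).card : ℝ) =
        ∑ m ∈ range M, ((S.filter (fun w =>
          (blk b P (tr b P x w) (P * m)).toNat ∈ avoid b k P U)).card : ℝ) := by
      have e1 : ∀ w ∈ S, (((range M).filter (fun m =>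
          (blk b P (tr b P x w) (P * m)).toNat ∈ avoid b k P U)).card : ℝ) =
          ∑ m ∈ range M, if (blk b P (tr b P x w) (P * m)).toNat ∈ avoid b k P U then (1 : ℝ) else 0 := by
        intro w _
        rw [← sum_filter, sum_const, nsmul_eq_mul, mul_one]
      rw [sum_congr rfl e1, sum_comm]
      refine sum_congr rfl fun m _ => ?_
      rw [← sum_filter, sum_const, nsmul_eq_mul, mul_one]
    rw [h9]
    calc ∑ m ∈ range M, ((S.filter (fun w =>
          (blk b P (tr b P x w) (P * m)).toNat ∈ avoid b k P U)).card : ℝ)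
        ≤ ∑ m ∈ range M, (2 * (avoid b k P U).card : ℝ) := by
          refine sum_le_sum fun m _ => ?_
          have h10 := fibre hb hP x m (avoid b k P U)
          have h11 : (S.filter (fun w =>
              (blk b P (tr b P x w) (P * m)).toNat ∈ avoid b k P U)).card ≤
              ((range (b ^ P)).filter (fun w =>
              (blk b P (tr b P x w) (P * m)).toNat ∈ avoid b k P U)).card := by
            refine card_le_card fun w hw => ?_
            rw [mem_filter] at hw ⊢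
            refine ⟨?_, hw.2⟩
            have := hw.1
            rw [hS] at this
            exact (mem_filter.1 this).1
          exact_mod_cast h11.trans h10
      _ = M * (2 * (avoid b k P U).card) := by rw [sum_const, card_range, nsmul_eq_mul]
  have h12 := h7.trans h8
  have hpos : 0 < 1 - d * P := by linarith
  rw [div_mul_eq_mul_div, le_div_iff₀ hpos]
  have h13 : (S.card : ℝ) * (1 - d * P) * M ≤ 2 * (avoid b k P U).card * M := by
    calc (S.card : ℝ) * (1 - d * P) * M = S.card * ((1 - d * P) * M) := by ring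
      _ ≤ M * (2 * (avoid b k P U).card) := h12
      _ = 2 * (avoid b k P U).card * M := by ring
  exact le_of_mul_le_mul_right h13 hMpos

/-- the number of the words without `U` -/
lemma avoid_succ {b k : ℕ} (hb : 2 ≤ b) (hk : 1 ≤ k) {U : ℤ} (hU0 : 0 ≤ U) (hU : U < (b : ℤ) ^ k) (P : ℕ) :
    (avoid b k (P + k) U).card ≤ (b ^ k - 1) * (avoid b k P U).card := by
  classical
  have hbk : 0 < b ^ k := by positivity
  have h1 : ∀ Y ∈ avoid b k (P + k) U, Y / b ^ k ∈ avoid b k P U ∧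
      Y % b ^ k ∈ (range (b ^ k)).erase U.toNat := by
    intro Y hY
    unfold avoid at hY ⊢
    rw [mem_filter, mem_range] at hY
    obtain ⟨hY1, hY2⟩ := hY
    refine ⟨?_, ?_⟩
    · rw [mem_filter, mem_range]
      refine ⟨?_, fun i hi => ?_⟩
      · rw [Nat.div_lt_iff_lt_mul hbk, ← pow_add]
        exact hY1
      · have h2 := hY2 i (by omega)
        have h3 : P + k - i - k = (P - i - k) + k := by omega
        rw [h3] at h2
        have h4 : ((Y / b ^ k : ℕ) : ℤ) / (b : ℤ) ^ (P - i - k) = (Y : ℤ) / (b : ℤ) ^ (P - i - k + k) := by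
          push_cast
          rw [Int.ediv_ediv_of_nonneg (by positivity), ← pow_add, add_comm k]
        rw [h4]
        exact h2
    · rw [mem_erase, mem_range]
      refine ⟨fun h => ?_, Nat.mod_lt _ hbk⟩
      have h2 := hY2 P (by omega)
      apply h2
      have h3 : P + k - P - k = 0 := by omega
      rw [h3, pow_zero, Int.ediv_one]
      have h4 : ((Y % b ^ k : ℕ) : ℤ) = U := by
        rw [h, Int.toNat_of_nonneg hU0]
      rw [← h4]
      push_cast
      rfl
  have h2 : (avoid b k (P + k) U).card ≤ ((avoid b k P U) ×ˢ ((range (b ^ k)).erase U.toNat)).card := by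
    refine card_le_card_of_injOn (fun Y => (Y / b ^ k, Y % b ^ k)) (fun Y hY => ?_)
      (fun Y _ Y' _ h => ?_)
    · rw [mem_coe, mem_product]
      exact h1 Y hY
    · simp only [Prod.mk.injEq] at h
      rw [← Nat.div_add_mod Y (b ^ k), ← Nat.div_add_mod Y' (b ^ k), h.1, h.2]
  rw [card_product, card_erase_of_mem, card_range] at h2
  · rw [mul_comm]
    exact h2
  · rw [mem_range]
    have : (U.toNat : ℤ) < ((b ^ k : ℕ) : ℤ) := by
      rw [Int.toNat_of_nonneg hU0]
      push_cast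
      exact hU
    exact_mod_cast this

/-- the number of the words without `U`, explicit -/
theorem avoid_le {b k : ℕ} (hb : 2 ≤ b) (hk : 1 ≤ k) {U : ℤ} (hU0 : 0 ≤ U) (hU : U < (b : ℤ) ^ k)
    (m r : ℕ) : (avoid b k (k * m + r) U).card ≤ (b ^ k - 1) ^ m * b ^ r := by
  classical
  induction m with
  | zero =>
    rw [mul_zero, zero_add, pow_zero, one_mul]
    unfold avoid
    refine (card_filter_le _ _).trans ?_
    rw [card_range]
  | succ m ih =>
    have h1 := avoid_succ hb hk hU0 hU (k * m + r)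
    have h2 : k * (m + 1) + r = k * m + r + k := by ring
    rw [h2]
    refine h1.trans ?_
    rw [pow_succ]
    calc (b ^ k - 1) * (avoid b k (k * m + r) U).card ≤ (b ^ k - 1) * ((b ^ k - 1) ^ m * b ^ r) :=
          Nat.mul_le_mul_left _ ih
      _ = (b ^ k - 1) ^ m * (b ^ k - 1) * b ^ r := by ring

end Q197.DT
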