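import Mathlib

/-! # Words in the expansions of integers after the addition of a number with a periodic expansion -/

set_option autoImplicit false

open Finset Filter

namespace Q197.DT

/-- the number with `M` periods, each of `P` digits with the value `w` -/
def per (b P M w : ℕ) : ℕ := w * ∑ j ∈ range M, b ^ (P * j)

/-- the number of the places `i < L` such that the `k` digits of `m` at the places
`i, …, i + k - 1` form the word `U` -/
def cntI (b k U m L : ℕ) : ℕ := ((range L).filter (fun i => m / b ^ i % b ^ k = U)).card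

open Classical in
/-- the words of `P` digits which do not contain the word `U` of `k` digits -/
noncomputable def avoidI (b k P U : ℕ) : Finset ℕ :=
  (range (b ^ P)).filter (fun Y => ∀ i, i + k ≤ P → Y / b ^ i % b ^ k ≠ U)

lemma blk_per {b P : ℕ} (hb : 2 ≤ b) (hP : 1 ≤ P) (m M j : ℕ) (hj : j < M) :
    ∃ I : ℕ, ∀ w < b ^ P, ∃ e : ℕ, (e = 0 ∨ e = 1) ∧
      (m + per b P M w) / b ^ (P * j) % b ^ P = (I + w + e) % b ^ P := by
  have hQ : 2 ≤ b ^ P := hb.trans (Nat.le_self_pow (by omega) b)
  refine ⟨m / b ^ (P * j), fun w hw => ?_⟩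
  -- the lower part
  obtain ⟨lo, hlo⟩ : ∃ lo, lo = w * ∑ i ∈ range j, b ^ (P * i) := ⟨_, rfl⟩
  have hlo1 : lo < b ^ (P * j) := by
    have h1 : (b ^ P - 1) * ∑ i ∈ range j, b ^ (P * i) = b ^ (P * j) - 1 := by
      have h2 := Nat.geomSum_eq hQ j
      have h3 : ∑ i ∈ range j, b ^ (P * i) = ∑ i ∈ range j, (b ^ P) ^ i :=
        sum_congr rfl fun i _ => by rw [pow_mul]
      rw [h3, h2, pow_mul]
      exact Nat.mul_div_cancel' (by
        have := Nat.sub_dvd_pow_sub_pow (b ^ P) 1 j
        simpa using this)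
    have h2 : lo ≤ (b ^ P - 1) * ∑ i ∈ range j, b ^ (P * i) := by
      rw [hlo]
      exact Nat.mul_le_mul_right _ (by omega)
    have h3 : 0 < b ^ (P * j) := by positivity
    omega
  obtain ⟨hi, hhi⟩ : ∃ hi, per b P M w = lo + b ^ (P * j) * w + b ^ (P * j) * (b ^ P * hi) := by
    refine ⟨w * ∑ i ∈ range (M - j - 1), b ^ (P * i), ?_⟩
    unfold per
    have h1 : ∑ i ∈ range M, b ^ (P * i) = ∑ i ∈ range (j + 1), b ^ (P * i) +
        ∑ i ∈ range (M - j - 1), b ^ (P * (j + 1 + i)) := by
      have h2 : M = (j + 1) + (M - j - 1) := by omega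
      conv_lhs => rw [h2]
      rw [sum_range_add]
    rw [h1, sum_range_succ, hlo]
    have h3 : ∑ i ∈ range (M - j - 1), b ^ (P * (j + 1 + i)) =
        b ^ (P * j) * (b ^ P * ∑ i ∈ range (M - j - 1), b ^ (P * i)) := by
      rw [mul_sum, mul_sum]
      refine sum_congr rfl fun i _ => ?_
      rw [← pow_add, ← pow_add]
      congr 1
      ring
    rw [h3]
    ring
  have hpos : 0 < b ^ (P * j) := by positivity
  have h4 : (m + per b P M w) / b ^ (P * j) = (m + lo) / b ^ (P * j) + w + b ^ P * hi := by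
    rw [hhi]
    have h5 : m + (lo + b ^ (P * j) * w + b ^ (P * j) * (b ^ P * hi)) =
        (m + lo) + b ^ (P * j) * (w + b ^ P * hi) := by ring
    rw [h5, Nat.add_mul_div_left _ _ hpos]
    ring
  refine ⟨(m + lo) / b ^ (P * j) - m / b ^ (P * j), ?_, ?_⟩
  · have h5 : m / b ^ (P * j) ≤ (m + lo) / b ^ (P * j) := Nat.div_le_div_right (by omega)
    have h6 : (m + lo) / b ^ (P * j) < m / b ^ (P * j) + 2 := by
      rw [Nat.div_lt_iff_lt_mul hpos]
      have h7 := Nat.div_add_mod m (b ^ (P * j))
      have h8 := Nat.mod_lt m hpos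
      nlinarith
    omega
  · rw [h4, Nat.add_mul_mod_self_left]
    have h5 : m / b ^ (P * j) ≤ (m + lo) / b ^ (P * j) := Nat.div_le_div_right (by omega)
    congr 1
    omega

lemma fibreI {b P : ℕ} (hb : 2 ≤ b) (hP : 1 ≤ P) (m M j : ℕ) (hj : j < M) (S : Finset ℕ) :
    ((range (b ^ P)).filter (fun w => (m + per b P M w) / b ^ (P * j) % b ^ P ∈ S)).card ≤
      2 * S.card := by
  classical
  obtain ⟨I, hI⟩ := blk_per hb hP m M j hj
  have hbP : (0 : ℤ) < (b : ℤ) ^ P := by positivity
  have hsub : (range (b ^ P)).filter (fun w => (m + per b P M w) / b ^ (P * j) % b ^ P ∈ S) ⊆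
      S.image (fun Y : ℕ => (((Y : ℤ) - I) % (b : ℤ) ^ P).toNat) ∪
      S.image (fun Y : ℕ => (((Y : ℤ) - I - 1) % (b : ℤ) ^ P).toNat) := by
    intro w hw
    rw [mem_filter, mem_range] at hw
    obtain ⟨hw1, hw2⟩ := hw
    obtain ⟨e, he, h1⟩ := hI w hw1
    have hw3 : (w : ℤ) < (b : ℤ) ^ P := by exact_mod_cast hw1
    have key : ∀ e' : ℤ, (e : ℤ) = e' →
        (((((m + per b P M w) / b ^ (P * j) % b ^ P : ℕ) : ℤ) - I - e') % (b : ℤ) ^ P).toNat = w := by
      intro e' hee
      rw [h1]
      push_cast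
      rw [hee]
      have h2 : (((I : ℤ) + w + e') % (b : ℤ) ^ P - I - e') % (b : ℤ) ^ P = w := by
        have h3 : ((I : ℤ) + w + e') % (b : ℤ) ^ P - I - e' =
            w + (b : ℤ) ^ P * (-(((I : ℤ) + w + e') / (b : ℤ) ^ P)) := by
          have h4 := Int.emod_add_mul_ediv ((I : ℤ) + w + e') ((b : ℤ) ^ P)
          linarith
        rw [h3, Int.add_mul_emod_self_left, Int.emod_eq_of_lt (by positivity) hw3]
      rw [h2]
      simp
    rw [mem_union]
    rcases he with he | he
    · left
      rw [mem_image]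
      refine ⟨_, hw2, ?_⟩
      have := key 0 (by rw [he]; rfl)
      rw [sub_zero] at this
      exact this
    · right
      rw [mem_image]
      exact ⟨_, hw2, key 1 (by rw [he]; rfl)⟩
  refine (card_le_card hsub).trans ((card_union_le _ _).trans ?_)
  have h1 : (S.image (fun Y : ℕ => (((Y : ℤ) - I) % (b : ℤ) ^ P).toNat)).card ≤ S.card := card_image_le
  have h2 : (S.image (fun Y : ℕ => (((Y : ℤ) - I - 1) % (b : ℤ) ^ P).toNat)).card ≤ S.card :=
    card_image_le
  omega

lemma sub_word {b : ℕ} (hb : 1 ≤ b) (m s P i k : ℕ) (h : i + k ≤ P) :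
    (m / b ^ s % b ^ P) / b ^ i % b ^ k = m / b ^ (s + i) % b ^ k := by
  have hpos : 0 < b ^ i := by positivity
  have h1 : m / b ^ s = m / b ^ s % b ^ P + b ^ i * (b ^ k * (b ^ (P - i - k) * (m / b ^ s / b ^ P))) := by
    have h2 := Nat.mod_add_div (m / b ^ s) (b ^ P)
    have h3 : b ^ P = b ^ i * (b ^ k * b ^ (P - i - k)) := by
      rw [← pow_add, ← pow_add]
      congr 1
      omega
    calc m / b ^ s = m / b ^ s % b ^ P + b ^ P * (m / b ^ s / b ^ P) := h2.symm
      _ = _ := by
        congr 1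
        nth_rw 1 [h3]
        ring
  rw [pow_add, ← Nat.div_div_eq_div_mul]
  conv_rhs => rw [h1]
  rw [Nat.add_mul_div_left _ _ hpos, Nat.add_mul_mod_self_left]

lemma cntI_blocks {b k P : ℕ} (hb : 2 ≤ b) (hk : 1 ≤ k) (U m M : ℕ) :
    M ≤ cntI b k U m (P * M) +
      ((range M).filter (fun j => m / b ^ (P * j) % b ^ P ∈ avoidI b k P U)).card := by
  classical
  have h1 : (range M).card = ((range M).filter (fun j => m / b ^ (P * j) % b ^ P ∈ avoidI b k P U)).card +
      ((range M).filter (fun j => ¬ m / b ^ (P * j) % b ^ P ∈ avoidI b k P U)).card :=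
    (card_filter_add_card_filter_not _).symm
  rw [card_range] at h1
  have h2 : ((range M).filter (fun j => ¬ m / b ^ (P * j) % b ^ P ∈ avoidI b k P U)).card ≤
      cntI b k U m (P * M) := by
    unfold cntI
    have h3 : ∀ j ∈ (range M).filter (fun j => ¬ m / b ^ (P * j) % b ^ P ∈ avoidI b k P U),
        ∃ i, i + k ≤ P ∧ m / b ^ (P * j + i) % b ^ k = U := by
      intro j hj
      rw [mem_filter] at hj
      by_contra hcon
      push Not at hcon
      apply hj.2
      unfold avoidI
      rw [mem_filter, mem_range]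
      refine ⟨Nat.mod_lt _ (by positivity), fun i hi => ?_⟩
      rw [sub_word (by omega) m (P * j) P i k hi]
      exact hcon i hi
    choose! i hi1 hi2 using h3
    refine card_le_card_of_injOn (fun j => P * j + i j) (fun j hj => ?_) (fun j hj j' hj' h => ?_)
    · have hm1 := mem_range.1 (mem_filter.1 hj).1
      have h4 := hi1 j hj
      rw [mem_coe, mem_filter, mem_range]
      refine ⟨?_, hi2 j hj⟩
      show P * j + i j < P * M
      have h5 : P * (j + 1) ≤ P * M := Nat.mul_le_mul_left P hm1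
      have h6 : P * (j + 1) = P * j + P := by ring
      omega
    · have h4 := hi1 j hj
      have h5 := hi1 j' hj'
      have hP : 0 < P := by omega
      have h6 : (P * j + i j) / P = j := by
        rw [Nat.mul_add_div hP, Nat.div_eq_of_lt (by omega), add_zero]
      have h7 : (P * j' + i j') / P = j' := by
        rw [Nat.mul_add_div hP, Nat.div_eq_of_lt (by omega), add_zero]
      have h8 : P * j + i j = P * j' + i j' := h
      rw [← h6, h8, h7]
  omega

open Classical in
/-- **Few exceptional periodic summands** -/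
theorem few_summands {b k P : ℕ} (hb : 2 ≤ b) (hk : 1 ≤ k) (hkP : k ≤ P) (U m M : ℕ) :
    ((range (b ^ P)).filter (fun w => 2 * cntI b k U (m + per b P M w) (P * M) < M)).card ≤
      4 * (avoidI b k P U).card := by
  have hP : 1 ≤ P := hk.trans hkP
  obtain ⟨S, hS⟩ : ∃ S, S = (range (b ^ P)).filter
    (fun w => 2 * cntI b k U (m + per b P M w) (P * M) < M) := ⟨_, rfl⟩
  rw [← hS]
  rcases Nat.eq_zero_or_pos M with hM | hM
  · have : S = ∅ := by
      rw [hS, hM]
      simp
    rw [this]
    simp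
  have h3 : ∀ w ∈ S, M ≤ 2 * ((range M).filter
      (fun j => (m + per b P M w) / b ^ (P * j) % b ^ P ∈ avoidI b k P U)).card := by
    intro w hw
    rw [hS] at hw
    have h5 := (mem_filter.1 hw).2
    have h4 := cntI_blocks (b := b) (k := k) (P := P) hb hk U (m + per b P M w) M
    omega
  have h7 : S.card * M ≤ ∑ w ∈ S, 2 * ((range M).filter
      (fun j => (m + per b P M w) / b ^ (P * j) % b ^ P ∈ avoidI b k P U)).card := by
    rw [← smul_eq_mul, ← sum_const]
    exact sum_le_sum h3
  have h8 : ∑ w ∈ S, ((range M).filter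
      (fun j => (m + per b P M w) / b ^ (P * j) % b ^ P ∈ avoidI b k P U)).card ≤
      M * (2 * (avoidI b k P U).card) := by
    have h9 : ∑ w ∈ S, ((range M).filter
        (fun j => (m + per b P M w) / b ^ (P * j) % b ^ P ∈ avoidI b k P U)).card =
        ∑ j ∈ range M, (S.filter (fun w =>
          (m + per b P M w) / b ^ (P * j) % b ^ P ∈ avoidI b k P U)).card := by
      simp only [card_filter]
      exact sum_comm
    rw [h9]
    calc ∑ j ∈ range M, (S.filter (fun w =>
          (m + per b P M w) / b ^ (P * j) % b ^ P ∈ avoidI b k P U)).card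
        ≤ ∑ j ∈ range M, (2 * (avoidI b k P U).card) := by
          refine sum_le_sum fun j hj => ?_
          have h10 := fibreI hb hP m M j (mem_range.1 hj) (avoidI b k P U)
          refine (card_le_card fun w hw => ?_).trans h10
          rw [mem_filter] at hw ⊢
          refine ⟨?_, hw.2⟩
          have := hw.1
          rw [hS] at this
          exact (mem_filter.1 this).1
      _ = M * (2 * (avoidI b k P U).card) := by rw [sum_const, card_range, smul_eq_mul]
  rw [← mul_sum] at h7
  have h12 : S.card * M ≤ (4 * (avoidI b k P U).card) * M := by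
    calc S.card * M ≤ 2 * (M * (2 * (avoidI b k P U).card)) := h7.trans (Nat.mul_le_mul_left 2 h8)
      _ = (4 * (avoidI b k P U).card) * M := by ring
  exact Nat.le_of_mul_le_mul_right h12 hM

lemma avoidI_succ {b k : ℕ} (hb : 2 ≤ b) (hk : 1 ≤ k) {U : ℕ} (hU : U < b ^ k) (P : ℕ) :
    (avoidI b k (P + k) U).card ≤ (b ^ k - 1) * (avoidI b k P U).card := by
  classical
  have hbk : 0 < b ^ k := by positivity
  have h1 : ∀ Y ∈ avoidI b k (P + k) U, Y / b ^ k ∈ avoidI b k P U ∧
      Y % b ^ k ∈ (range (b ^ k)).erase U := by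
    intro Y hY
    unfold avoidI at hY ⊢
    rw [mem_filter, mem_range] at hY
    obtain ⟨hY1, hY2⟩ := hY
    refine ⟨?_, ?_⟩
    · rw [mem_filter, mem_range]
      refine ⟨?_, fun i hi => ?_⟩
      · rw [Nat.div_lt_iff_lt_mul hbk, ← pow_add]
        exact hY1
      · have h2 := hY2 (i + k) (by omega)
        rw [Nat.div_div_eq_div_mul, ← pow_add, add_comm k i]
        exact h2
    · rw [mem_erase, mem_range]
      refine ⟨?_, Nat.mod_lt _ hbk⟩
      have h2 := hY2 0 (by omega)
      rw [pow_zero, Nat.div_one] at h2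
      exact h2
  have h2 : (avoidI b k (P + k) U).card ≤ ((avoidI b k P U) ×ˢ ((range (b ^ k)).erase U)).card := by
    refine card_le_card_of_injOn (fun Y => (Y / b ^ k, Y % b ^ k)) (fun Y hY => ?_)
      (fun Y _ Y' _ h => ?_)
    · rw [mem_coe, mem_product]
      exact h1 Y hY
    · simp only [Prod.mk.injEq] at h
      rw [← Nat.div_add_mod Y (b ^ k), ← Nat.div_add_mod Y' (b ^ k), h.1, h.2]
  rw [card_product, card_erase_of_mem (mem_range.2 hU), card_range] at h2
  rw [mul_comm]
  exact h2

/-- the number of the words without `U`, explicit -/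
theorem avoidI_le {b k : ℕ} (hb : 2 ≤ b) (hk : 1 ≤ k) {U : ℕ} (hU : U < b ^ k)
    (m r : ℕ) : (avoidI b k (k * m + r) U).card ≤ (b ^ k - 1) ^ m * b ^ r := by
  classical
  induction m with
  | zero =>
    rw [mul_zero, zero_add, pow_zero, one_mul]
    unfold avoidI
    refine (card_filter_le _ _).trans ?_
    rw [card_range]
  | succ m ih =>
    have h1 := avoidI_succ hb hk hU (k * m + r)
    have h2 : k * (m + 1) + r = k * m + r + k := by ring
    rw [h2]
    refine h1.trans ?_
    rw [pow_succ]
    calc (b ^ k - 1) * (avoidI b k (k * m + r) U).card ≤ (b ^ k - 1) * ((b ^ k - 1) ^ m * b ^ r) :=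
          Nat.mul_le_mul_left _ ih
      _ = (b ^ k - 1) ^ m * (b ^ k - 1) * b ^ r := by ring

end Q197.DT
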