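import Pool.Agent.Q197.DT.B

/-! # Frequencies of digits after the addition of a number with a periodic expansion -/

set_option autoImplicit false

open Finset Filter

namespace Q197.DT

/-- the number of the places `i < L` where the digit of `Y` is `d` -/
def dc (b d L Y : ℕ) : ℕ := ((range L).filter (fun i => Y / b ^ i % b = d)).card

lemma dc_succ (b d L Y : ℕ) : dc b d (L + 1) Y = (if Y % b = d then 1 else 0) + dc b d L (Y / b) := by
  unfold dc
  rw [card_filter, card_filter, sum_range_succ']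
  rw [add_comm]
  congr 1
  · simp
  · refine sum_congr rfl fun i _ => ?_
    rw [Nat.div_div_eq_div_mul, pow_succ, mul_comm]

lemma dc_blocks {b : ℕ} (hb : 2 ≤ b) (d P m M : ℕ) :
    dc b d (P * M) m = ∑ j ∈ range M, dc b d P (m / b ^ (P * j) % b ^ P) := by
  induction M with
  | zero => simp [dc]
  | succ M ih =>
    rw [sum_range_succ, ← ih]
    unfold dc
    rw [card_filter, card_filter, card_filter, mul_add, mul_one, sum_range_add]
    congr 1
    refine sum_congr rfl fun i hi => ?_
    have hi1 := mem_range.1 hi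
    have h := sub_word (b := b) (by omega) m (P * M) P i 1 (by omega)
    rw [pow_one] at h
    rw [h]

lemma mgf {b : ℕ} (hb : 2 ≤ b) {d : ℕ} (hd : d < b) (s : ℝ) (P : ℕ) :
    ∑ Y ∈ range (b ^ P), Real.exp (s * dc b d P Y) = ((b : ℝ) - 1 + Real.exp s) ^ P := by
  induction P with
  | zero => simp [dc]
  | succ P ih =>
    have hb0 : 0 < b := by omega
    have h1 : ∑ Y ∈ range (b ^ (P + 1)), Real.exp (s * dc b d (P + 1) Y) =
        ∑ x ∈ (range (b ^ P)) ×ˢ (range b),
          Real.exp (s * dc b d P x.1) * (if x.2 = d then Real.exp s else 1) := by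
      refine sum_nbij' (fun Y => (Y / b, Y % b)) (fun x => x.1 * b + x.2) ?_ ?_ ?_ ?_ ?_
      · intro Y hY
        rw [mem_range] at hY
        rw [mem_product, mem_range, mem_range]
        refine ⟨?_, Nat.mod_lt _ hb0⟩
        rw [Nat.div_lt_iff_lt_mul hb0, ← pow_succ]
        exact hY
      · intro x hx
        rw [mem_product, mem_range, mem_range] at hx
        rw [mem_range, pow_succ]
        nlinarith [hx.1, hx.2]
      · intro Y _
        exact Nat.div_add_mod' Y b
      · intro x hx
        rw [mem_product, mem_range, mem_range] at hx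
        apply Prod.ext
        · show (x.1 * b + x.2) / b = x.1
          rw [mul_comm, Nat.mul_add_div hb0, Nat.div_eq_of_lt hx.2, add_zero]
        · show (x.1 * b + x.2) % b = x.2
          rw [mul_comm, Nat.mul_add_mod, Nat.mod_eq_of_lt hx.2]
      · intro Y _
        rw [dc_succ]
        show _ = Real.exp (s * dc b d P (Y / b)) * (if Y % b = d then Real.exp s else 1)
        split_ifs with h
        · push_cast
          rw [mul_add, mul_one, Real.exp_add, mul_comm]
        · push_cast
          rw [zero_add, mul_one]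
    rw [h1, sum_product]
    have h2 : ∀ Y : ℕ, ∑ a ∈ range b, Real.exp (s * dc b d P Y) * (if a = d then Real.exp s else 1) =
        Real.exp (s * dc b d P Y) * ((b : ℝ) - 1 + Real.exp s) := by
      intro Y
      rw [← mul_sum]
      congr 1
      have h3 : ∑ a ∈ range b, (if a = d then Real.exp s else (1 : ℝ)) =
          ∑ a ∈ range b, (1 + if a = d then Real.exp s - 1 else 0) := by
        refine sum_congr rfl fun a _ => ?_
        split_ifs <;> ring
      rw [h3, sum_add_distrib, sum_const, card_range, nsmul_eq_mul, mul_one,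
        sum_ite_eq' (range b) d (fun _ => Real.exp s - 1), if_pos (mem_range.2 hd)]
      ring
    simp only [h2]
    rw [← sum_mul, ih, pow_succ]

/-- one-sided exponential bound -/
lemma chernoff {b : ℕ} (hb : 2 ≤ b) {d : ℕ} (hd : d < b) {e : ℝ} (he : 0 < e) (he1 : e ≤ 1) (P : ℕ)
    {s : ℝ} (hs : s = e ∨ s = -e) :
    (((range (b ^ P)).filter (fun Y => e ^ 2 * P < s * ((dc b d P Y : ℝ) - P / b))).card : ℝ) ≤
      Real.exp (-(e ^ 2 * P / 2)) * (b : ℝ) ^ P := by
  have hb' : (2 : ℝ) ≤ b := by exact_mod_cast hb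
  have hb0 : (0 : ℝ) < b := by linarith
  have hP : (0 : ℝ) ≤ P := Nat.cast_nonneg _
  have hss : s ^ 2 = e ^ 2 := by rcases hs with h | h <;> rw [h]; ring
  have hs1 : |s| ≤ 1 := by
    rcases hs with h | h
    · rw [h, abs_of_pos he]; exact he1
    · rw [h, abs_neg, abs_of_pos he]; exact he1
  obtain ⟨T, hT⟩ : ∃ T, T = (range (b ^ P)).filter
    (fun Y => e ^ 2 * P < s * ((dc b d P Y : ℝ) - P / b)) := ⟨_, rfl⟩
  rw [← hT]
  have h1 : (T.card : ℝ) * Real.exp (e ^ 2 * P + s * (P / b)) ≤ ((b : ℝ) - 1 + Real.exp s) ^ P := by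
    rw [← mgf hb hd s P]
    calc (T.card : ℝ) * Real.exp (e ^ 2 * P + s * (P / b)) = ∑ Y ∈ T, Real.exp (e ^ 2 * P + s * (P / b)) := by
          rw [sum_const, nsmul_eq_mul]
      _ ≤ ∑ Y ∈ T, Real.exp (s * dc b d P Y) := by
          refine sum_le_sum fun Y hY => Real.exp_le_exp.2 ?_
          rw [hT, mem_filter] at hY
          have := hY.2
          rw [mul_sub] at this
          linarith
      _ ≤ _ := sum_le_sum_of_subset_of_nonneg (by rw [hT]; exact filter_subset _ _)
          fun Y _ _ => (Real.exp_pos _).le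
  have h2 : ((b : ℝ) - 1 + Real.exp s) ≤ b * Real.exp ((s + e ^ 2) / b) := by
    have h3 := Real.abs_exp_sub_one_sub_id_le hs1
    have h4 : Real.exp s ≤ 1 + s + e ^ 2 := by
      have := (abs_le.1 h3).2
      rw [hss] at this
      linarith
    have h5 := Real.add_one_le_exp ((s + e ^ 2) / b)
    have h6 : (b : ℝ) * ((s + e ^ 2) / b + 1) = b + (s + e ^ 2) := by field_simp; ring
    nlinarith
  have h3 : ((b : ℝ) - 1 + Real.exp s) ^ P ≤ (b : ℝ) ^ P * Real.exp (P * ((s + e ^ 2) / b)) := by
    have h4 : 0 ≤ (b : ℝ) - 1 + Real.exp s := by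
      have := Real.exp_pos s
      linarith
    calc ((b : ℝ) - 1 + Real.exp s) ^ P ≤ (b * Real.exp ((s + e ^ 2) / b)) ^ P := pow_le_pow_left₀ h4 h2 P
      _ = (b : ℝ) ^ P * Real.exp (P * ((s + e ^ 2) / b)) := by
          rw [mul_pow, ← Real.exp_nat_mul]
  have h4 := h1.trans h3
  have h5 : (T.card : ℝ) ≤ (b : ℝ) ^ P * Real.exp (P * ((s + e ^ 2) / b)) * Real.exp (-(e ^ 2 * P + s * (P / b))) := by
    rw [Real.exp_neg, ← div_eq_mul_inv, le_div_iff₀ (Real.exp_pos _)]
    exact h4
  refine h5.trans ?_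
  rw [mul_assoc, ← Real.exp_add, mul_comm]
  apply mul_le_mul_of_nonneg_right _ (by positivity)
  apply Real.exp_le_exp.2
  have h6 : (P : ℝ) * ((s + e ^ 2) / b) + -(e ^ 2 * P + s * (P / b)) = e ^ 2 * P * (1 / b - 1) := by
    field_simp
    ring
  rw [h6]
  have h7 : 1 / (b : ℝ) ≤ 1 / 2 := one_div_le_one_div_of_le (by norm_num) hb'
  have h8 : 0 ≤ e ^ 2 * P := by positivity
  nlinarith

/-- the words with a wrong frequency -/
noncomputable def wrong (b d : ℕ) (e : ℝ) (P : ℕ) : Finset ℕ :=
  (range (b ^ P)).filter (fun Y => e * P < |(dc b d P Y : ℝ) - P / b|)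

lemma wrong_card {b : ℕ} (hb : 2 ≤ b) {d : ℕ} (hd : d < b) {e : ℝ} (he : 0 < e) (he1 : e ≤ 1) (P : ℕ) :
    ((wrong b d e P).card : ℝ) ≤ 2 * (Real.exp (-(e ^ 2 * P / 2)) * (b : ℝ) ^ P) := by
  classical
  have h1 := chernoff hb hd he he1 P (s := e) (Or.inl rfl)
  have h2 := chernoff hb hd he he1 P (s := -e) (Or.inr rfl)
  have hsub : wrong b d e P ⊆
      (range (b ^ P)).filter (fun Y => e ^ 2 * P < e * ((dc b d P Y : ℝ) - P / b)) ∪
      (range (b ^ P)).filter (fun Y => e ^ 2 * P < -e * ((dc b d P Y : ℝ) - P / b)) := by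
    intro Y hY
    unfold wrong at hY
    rw [mem_filter] at hY
    rw [mem_union, mem_filter, mem_filter]
    rcases lt_abs.1 hY.2 with h | h
    · left
      refine ⟨hY.1, ?_⟩
      calc e ^ 2 * P = e * (e * P) := by ring
        _ < _ := mul_lt_mul_of_pos_left h he
    · right
      refine ⟨hY.1, ?_⟩
      calc e ^ 2 * P = e * (e * P) := by ring
        _ < e * -((dc b d P Y : ℝ) - P / b) := mul_lt_mul_of_pos_left h he
        _ = _ := by ring
  have h3 : ((wrong b d e P).card : ℝ) ≤
      (((range (b ^ P)).filter (fun Y => e ^ 2 * P < e * ((dc b d P Y : ℝ) - P / b))).card : ℝ) +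
      (((range (b ^ P)).filter (fun Y => e ^ 2 * P < -e * ((dc b d P Y : ℝ) - P / b))).card : ℝ) := by
    exact_mod_cast (card_le_card hsub).trans (card_union_le _ _)
  linarith

/-- if few blocks are wrong, then the frequency is right -/
lemma freq_of_blocks {b : ℕ} (hb : 2 ≤ b) {d : ℕ} (e : ℝ) (he : 0 ≤ e) (P m M : ℕ)
    (h : (((range M).filter (fun j => m / b ^ (P * j) % b ^ P ∈ wrong b d e P)).card : ℝ) ≤ e * M) :
    |(dc b d (P * M) m : ℝ) - P * M / b| ≤ 2 * e * (P * M) := by
  classical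
  have hb' : (2 : ℝ) ≤ b := by exact_mod_cast hb
  have hb0 : (0 : ℝ) < b := by linarith
  have hP : (0 : ℝ) ≤ P := Nat.cast_nonneg _
  have hM : (0 : ℝ) ≤ M := Nat.cast_nonneg _
  rw [dc_blocks hb]
  push_cast
  have h1 : ∑ j ∈ range M, (dc b d P (m / b ^ (P * j) % b ^ P) : ℝ) - P * M / b =
      ∑ j ∈ range M, ((dc b d P (m / b ^ (P * j) % b ^ P) : ℝ) - P / b) := by
    rw [sum_sub_distrib, sum_const, card_range, nsmul_eq_mul]
    ring
  rw [h1]
  have h2 : ∀ j ∈ range M, |(dc b d P (m / b ^ (P * j) % b ^ P) : ℝ) - P / b| ≤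
      e * P + if m / b ^ (P * j) % b ^ P ∈ wrong b d e P then (P : ℝ) else 0 := by
    intro j _
    have h3 : (dc b d P (m / b ^ (P * j) % b ^ P) : ℝ) ≤ P := by
      unfold dc
      have := card_filter_le (range P) (fun i => m / b ^ (P * j) % b ^ P / b ^ i % b = d)
      rw [card_range] at this
      exact_mod_cast this
    have h4 : (0 : ℝ) ≤ dc b d P (m / b ^ (P * j) % b ^ P) := Nat.cast_nonneg _
    have h5 : (P : ℝ) / b ≤ P := div_le_self hP (by linarith)
    have h6 : 0 ≤ (P : ℝ) / b := by positivity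
    split_ifs with hw
    · have : |(dc b d P (m / b ^ (P * j) % b ^ P) : ℝ) - P / b| ≤ P := by
        rw [abs_le]
        constructor <;> linarith
      have h7 : 0 ≤ e * P := by positivity
      linarith
    · rw [add_zero]
      by_contra hcon
      push Not at hcon
      apply hw
      unfold wrong
      rw [mem_filter, mem_range]
      exact ⟨Nat.mod_lt _ (by positivity), hcon⟩
  calc |∑ j ∈ range M, ((dc b d P (m / b ^ (P * j) % b ^ P) : ℝ) - P / b)|
      ≤ ∑ j ∈ range M, |(dc b d P (m / b ^ (P * j) % b ^ P) : ℝ) - P / b| := abs_sum_le_sum_abs _ _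
    _ ≤ ∑ j ∈ range M, (e * P + if m / b ^ (P * j) % b ^ P ∈ wrong b d e P then (P : ℝ) else 0) :=
        sum_le_sum h2
    _ = e * (P * M) + P * (((range M).filter (fun j => m / b ^ (P * j) % b ^ P ∈ wrong b d e P)).card : ℝ) := by
        rw [sum_add_distrib, sum_const, card_range, nsmul_eq_mul, ← sum_filter, sum_const, nsmul_eq_mul]
        ring
    _ ≤ e * (P * M) + P * (e * M) := by gcongr
    _ = 2 * e * (P * M) := by ring

/-- **Frequencies after the addition of a periodic number** -/
theorem freq_summands {b P : ℕ} (hb : 2 ≤ b) (hP : 1 ≤ P) {d : ℕ} (hd : d < b) {e : ℝ} (he : 0 < e)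
    (he1 : e ≤ 1) (m M : ℕ) :
    (((range (b ^ P)).filter (fun w =>
      2 * e * (P * M) < |(dc b d (P * M) (m + per b P M w) : ℝ) - P * M / b|)).card : ℝ) ≤
      4 / e * Real.exp (-(e ^ 2 * P / 2)) * (b : ℝ) ^ P := by
  classical
  obtain ⟨S, hS⟩ : ∃ S, S = (range (b ^ P)).filter (fun w =>
      2 * e * (P * M) < |(dc b d (P * M) (m + per b P M w) : ℝ) - P * M / b|) := ⟨_, rfl⟩
  rw [← hS]
  rcases Nat.eq_zero_or_pos M with hM | hM
  · have : S = ∅ := by
      rw [hS, hM]
      simp [dc]
    rw [this]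
    simp
    positivity
  have hMr : (0 : ℝ) < M := by exact_mod_cast hM
  have h3 : ∀ w ∈ S, e * M ≤ (((range M).filter
      (fun j => (m + per b P M w) / b ^ (P * j) % b ^ P ∈ wrong b d e P)).card : ℝ) := by
    intro w hw
    rw [hS] at hw
    have h5 := (mem_filter.1 hw).2
    by_contra hcon
    push Not at hcon
    exact absurd (freq_of_blocks hb e he.le P (m + per b P M w) M hcon.le) (not_le.2 h5)
  have h7 : (S.card : ℝ) * (e * M) ≤ ∑ w ∈ S, (((range M).filter
      (fun j => (m + per b P M w) / b ^ (P * j) % b ^ P ∈ wrong b d e P)).card : ℝ) := by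
    rw [← nsmul_eq_mul, ← sum_const]
    exact sum_le_sum h3
  have h8 : ∑ w ∈ S, ((range M).filter
      (fun j => (m + per b P M w) / b ^ (P * j) % b ^ P ∈ wrong b d e P)).card ≤
      M * (2 * (wrong b d e P).card) := by
    have h9 : ∑ w ∈ S, ((range M).filter
        (fun j => (m + per b P M w) / b ^ (P * j) % b ^ P ∈ wrong b d e P)).card =
        ∑ j ∈ range M, (S.filter (fun w =>
          (m + per b P M w) / b ^ (P * j) % b ^ P ∈ wrong b d e P)).card := by
      simp only [card_filter]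
      exact sum_comm
    rw [h9]
    calc ∑ j ∈ range M, (S.filter (fun w =>
          (m + per b P M w) / b ^ (P * j) % b ^ P ∈ wrong b d e P)).card
        ≤ ∑ j ∈ range M, (2 * (wrong b d e P).card) := by
          refine sum_le_sum fun j hj => ?_
          have h10 := fibreI hb hP m M j (mem_range.1 hj) (wrong b d e P)
          refine (card_le_card fun w hw => ?_).trans h10
          rw [mem_filter] at hw ⊢
          refine ⟨?_, hw.2⟩
          have := hw.1
          rw [hS] at this
          exact (mem_filter.1 this).1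
      _ = M * (2 * (wrong b d e P).card) := by rw [sum_const, card_range, smul_eq_mul]
  have h9 : ∑ w ∈ S, (((range M).filter
      (fun j => (m + per b P M w) / b ^ (P * j) % b ^ P ∈ wrong b d e P)).card : ℝ) ≤
      M * (2 * ((wrong b d e P).card : ℝ)) := by exact_mod_cast h8
  have h10 := wrong_card hb hd he he1 P
  have h11 : (S.card : ℝ) * e * M ≤ 4 * (Real.exp (-(e ^ 2 * P / 2)) * (b : ℝ) ^ P) * M := by
    calc (S.card : ℝ) * e * M = S.card * (e * M) := by ring
      _ ≤ M * (2 * ((wrong b d e P).card : ℝ)) := h7.trans h9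
      _ ≤ M * (2 * (2 * (Real.exp (-(e ^ 2 * P / 2)) * (b : ℝ) ^ P))) := by gcongr
      _ = _ := by ring
  have h12 := le_of_mul_le_mul_right h11 hMr
  calc (S.card : ℝ) ≤ 4 * (Real.exp (-(e ^ 2 * P / 2)) * (b : ℝ) ^ P) / e := by
        rw [le_div_iff₀ he]
        exact h12
    _ = _ := by ring

end Q197.DT
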